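import Pool.Agent.H7.Flip1
import Pool.Agent.H7.Flip3

set_option autoImplicit false

namespace Pool.Agent.Results.MP_56a9b7_co.Const

open Finset Pool.Agent.H7.Flip

/-- `e_j[v]`: the number of edges of colour `j` with both endpoints in `N[v]`. -/
noncomputable def e {α : Type} (G : SimpleGraph α) (f : Sym2 α → Fin 3) (j : Fin 3) (v : α) : ℕ :=
  {d : Sym2 α | d ∈ G.edgeSet ∧ f d = j ∧ ∀ x ∈ d, x = v ∨ G.Adj v x}.ncard

/-- `(a 0, a 1, a 2)` is a 3-flip sequence (colours `0, 1, 2` stand for `1, 2, 3`). -/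
def IsFlip (a : Fin 3 → ℕ) : Prop :=
  0 < a 0 ∧ a 0 < a 1 ∧ a 1 < a 2 ∧
    ∃ (α : Type) (_ : Finite α) (_ : Nonempty α) (G : SimpleGraph α) (f : Sym2 α → Fin 3),
      (∀ v j, {u | G.Adj v u ∧ f s(v, u) = j}.ncard = a j) ∧
        ∀ v, e G f 2 v < e G f 1 v ∧ e G f 1 v < e G f 0 v

open Classical in
theorem two_e {α : Type} [Fintype α] (G : SimpleGraph α) (f : Sym2 α → Fin 3) (j : Fin 3) (v : α) :
    2 * e G f j v = ∑ x, if x = v ∨ G.Adj v x then ∑ y, (if y = v ∨ G.Adj v y then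
      (if G.Adj x y then (if f s(x, y) = j then 1 else 0) else 0) else 0) else 0 := by
  let H : SimpleGraph α :=
    { Adj := fun x y => (x = v ∨ G.Adj v x) ∧ (y = v ∨ G.Adj v y) ∧ G.Adj x y ∧ f s(x, y) = j
      symm := ⟨fun x y h => ⟨h.2.1, h.1, h.2.2.1.symm, Sym2.eq_swap ▸ h.2.2.2⟩⟩
      loopless := ⟨fun x h => G.irrefl h.2.2.1⟩ }
  have h1 : e G f j v = H.edgeFinset.card := by
    rw [e, ← Set.ncard_coe_finset, SimpleGraph.coe_edgeFinset]
    congr 1
    ext d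
    induction d using Sym2.ind with
    | _ x y => simp only [Set.mem_ofPred_eq, SimpleGraph.mem_edgeSet, Sym2.forall_mem_pair, H]; tauto
  rw [h1, ← H.sum_degrees_eq_twice_card_edges]
  refine sum_congr rfl fun x _ => ?_
  rw [← SimpleGraph.card_neighborFinset_eq_degree, SimpleGraph.neighborFinset_eq_filter, card_filter]
  split_ifs with hx
  · refine sum_congr rfl fun y _ => ?_
    simp only [H, hx, true_and, ite_and]
  · exact sum_eq_zero fun y _ => if_neg fun h => hx h.1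

open Classical in
theorem deg_eq {α : Type} [Fintype α] (G : SimpleGraph α) (f : Sym2 α → Fin 3) (j : Fin 3) (v : α) :
    {u | G.Adj v u ∧ f s(v, u) = j}.ncard =
      ∑ u, if G.Adj v u then (if f s(v, u) = j then 1 else 0) else 0 := by
  simp only [← ite_and, ← card_filter, ← Set.ncard_coe_finset]
  congr 1
  ext u
  simp

theorem upper (a : Fin 3 → ℕ) (h : IsFlip a) : (a 2 : ℝ) ≤ 2 * a 0 + 5 / 4 * (a 0 : ℝ) ^ 2 := by
  classical
  obtain ⟨h0, -, -, α, _, _, G, f, hd, he⟩ := h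
  have := Fintype.ofFinite α
  obtain ⟨c, hc⟩ : ∃ c : Fin 3 → α → α → ℝ,
    c = fun j x y => if G.Adj x y then (if f s(x, y) = j then 1 else 0) else 0 := ⟨_, rfl⟩
  have cs : ∀ j x y, c j x y = c j y x := fun j x y => by
    simp only [hc, G.adj_comm x, Sym2.eq_swap (a := x)]
  have c0 : ∀ j x y, 0 ≤ c j x y := fun j x y => by simp only [hc]; positivity
  have cA : ∀ x y, c 0 x y + (c 1 x y + c 2 x y) = if G.Adj x y then 1 else 0 := fun x y => by
    simp only [hc]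
    generalize f s(x, y) = z
    split_ifs <;> first | omega | norm_num
  have cd : ∀ j v, ∑ x, c j v x = a j := fun j v => by
    rw [← hd v j, deg_eq, hc]; push_cast; rfl
  have ce : ∀ j v, (2 * e G f j v : ℝ) = 2 * a j + ∑ x, ∑ y,
      (c 0 + (c 1 + c 2)) v x * (c 0 + (c 1 + c 2)) v y * c j x y := by
    intro j v
    have h1 : ∀ x, (if x = v ∨ G.Adj v x then (1 : ℝ) else 0) =
        (if x = v then 1 else 0) + if G.Adj v x then 1 else 0 := by
      intro x
      by_cases hx : x = v <;> simp [hx]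
    have h2 : ∀ x, (if G.Adj v x then 1 else 0) * c j v x = c j v x := fun x => by
      simp only [hc]; split_ifs <;> simp
    have h3 : c j v v = 0 := by simp [hc]
    have h4 : (2 * e G f j v : ℝ) = ∑ x, ∑ y, (if x = v ∨ G.Adj v x then (1 : ℝ) else 0) *
        (if y = v ∨ G.Adj v y then (1 : ℝ) else 0) * c j x y := by
      have := congrArg (Nat.cast (R := ℝ)) (two_e G f j v)
      push_cast at this
      rw [this, hc]
      refine sum_congr rfl fun x _ => ?_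
      by_cases hx : x = v ∨ G.Adj v x
      · rw [if_pos hx]
        exact sum_congr rfl fun y _ => by rw [if_pos hx]; split_ifs <;> simp [*]
      · simp [hx]
    rw [h4]
    simp only [h1, Pi.add_apply, cA, add_mul, mul_add, sum_add_distrib]
    have h5 : ∑ x, ∑ y, (if G.Adj v x then (1 : ℝ) else 0) * (if y = v then 1 else 0) * c j x y
        = a j := by
      rw [← cd j v]
      exact sum_congr rfl fun x _ => by rw [← h2 x, cs j v x]; simp
    have h6 : ∑ x, ∑ y, (if x = v then (1 : ℝ) else 0) * (if G.Adj v y then 1 else 0) * c j x y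
        = a j := by
      rw [← cd j v, sum_comm]
      exact sum_congr rfl fun y _ => by rw [← h2 y]; simp
    have h7 : ∑ x, ∑ y, (if x = v then (1 : ℝ) else 0) * (if y = v then 1 else 0) * c j x y
        = 0 := by simp [h3]
    linarith
  have key := glob (c 0) (c 1 + c 2) (a 0) (by exact_mod_cast h0) (cs 0)
    (fun x y => by simp only [Pi.add_apply, cs _ x]) (c0 0)
    (fun x y => add_nonneg (c0 1 x y) (c0 2 x y))
    (fun x y => by simp only [Pi.add_apply, cA]; split_ifs <;> norm_num) (cd 0)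
  have low : (Fintype.card α : ℝ) * (2 * a 2 - 4 * a 0) ≤ 2 * T (c 0 + (c 1 + c 2))
      (c 0 + (c 1 + c 2)) (c 0) - T (c 0 + (c 1 + c 2)) (c 0 + (c 1 + c 2)) (c 1 + c 2) := by
    unfold T
    rw [mul_sum, ← sum_sub_distrib, ← card_univ, ← nsmul_eq_mul]
    refine card_nsmul_le_sum _ _ _ fun v _ => ?_
    have p0 := ce 0 v
    have p1 := ce 1 v
    have p2 := ce 2 v
    have q1 : (e G f 2 v : ℝ) < e G f 1 v := by exact_mod_cast (he v).1
    have q2 : (e G f 1 v : ℝ) < e G f 0 v := by exact_mod_cast (he v).2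
    have q3 : (0 : ℝ) ≤ a 1 := by positivity
    have : ∀ A : α → α → ℝ, ∑ x, ∑ y, A v x * A v y * (c 1 + c 2) x y =
        ∑ x, ∑ y, A v x * A v y * c 1 x y + ∑ x, ∑ y, A v x * A v y * c 2 x y := fun A => by
      simp only [Pi.add_apply, mul_add, sum_add_distrib]
    rw [this]
    linarith
  have hn : (0 : ℝ) < Fintype.card α := by exact_mod_cast Fintype.card_pos
  have := le_of_mul_le_mul_left (low.trans key) hn
  linarith

theorem lower (n : ℕ) : ∃ a, IsFlip a ∧ n < a 0 ∧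
    (5 * (n + 3) ^ 2 + 4 * (n + 3)) * a 0 ^ 2 ≤ (2 * (n + 3) + 1) ^ 2 * a 2 := by
  classical
  obtain ⟨r, hr⟩ : ∃ r, r = n + 3 := ⟨_, rfl⟩
  have hr0 : 0 < r := by omega
  obtain ⟨t, ht⟩ : ∃ t, 4 * r ^ 3 + 2 * r ^ 2 = t + 1 :=
    Nat.exists_eq_succ_of_ne_zero (by positivity)
  obtain ⟨m, hm⟩ : ∃ m, (t + 1) ^ 2 * (5 * r ^ 2 + 4 * r) = m + 1 :=
    Nat.exists_eq_succ_of_ne_zero (by positivity)
  obtain ⟨δ, hδ⟩ : ∃ δ, δ = 2 * r ^ 3 + 6 * r ^ 2 + 4 * r := ⟨_, rfl⟩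
  obtain ⟨ε, hε⟩ : ∃ ε, ε = 2 * r * (n ^ 2 + 4 * n + 1) := ⟨_, rfl⟩
  have h : δ + ε = t + 1 := by rw [← ht, hδ, hε, hr]; ring
  have h' : δ = ε + 2 * (5 * r ^ 2 + 4 * r) := by rw [hδ, hε, hr]; ring
  have hm0 : 0 < m := by
    have : 1 * 9 ≤ (t + 1) ^ 2 * (5 * r ^ 2 + 4 * r) := Nat.mul_le_mul (by nlinarith) (by nlinarith)
    omega
  let G : SimpleGraph (V r t m) := ⟨adj, ⟨fun _ _ => adj_symm⟩, ⟨adj_irrefl⟩⟩
  let f : Sym2 (V r t m) → Fin 3 := Sym2.lift ⟨col δ, col_symm δ⟩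
  have hW : ∀ j p q, (if G.Adj p q then (if f s(p, q) = j then 1 else 0) else 0) =
      W δ (fun i => if i = j then 1 else 0) p q := fun j p q => by
    unfold W; congr
  refine ⟨![(2 * r + 1) * t + 2 * r, 2 * r ^ 2 * δ, 2 * r ^ 2 * ε + m], ⟨?_, ?_, ?_, V r t m,
    inferInstance, ⟨((fun _ => 0, 0), 0, true, ⟨0, hm0⟩)⟩, G, f, fun v j => ?_, fun v => ?_⟩, ?_, ?_⟩
  · simp; omega
  · have : (2 * r + 1) * (t + 1) ≤ 2 * r ^ 2 * δ := by
      rw [← ht, hδ]
      have : 1 * r ^ 2 ≤ r ^ 2 * r ^ 2 := Nat.mul_le_mul_right _ (by nlinarith)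
      nlinarith [Nat.zero_le (r ^ 5)]
    simp; nlinarith
  · have : 4 * r ^ 2 + 2 ≤ (t + 1) ^ 2 := by
      have : 1 * r ^ 2 ≤ r * r ^ 2 := Nat.mul_le_mul_right _ hr0
      have : 4 * r ^ 2 + 2 ≤ t + 1 := by nlinarith
      nlinarith
    have := Nat.mul_le_mul_right (5 * r ^ 2 + 4 * r) this
    simp; nlinarith
  · have := degW h (fun i => if i = j then 1 else 0) v
    rw [deg_eq]
    have hh : ∑ u, W δ (fun i => if i = j then 1 else 0) v u =
        ![(2 * r + 1) * t + 2 * r, 2 * r ^ 2 * δ, 2 * r ^ 2 * ε + m] j := by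
      fin_cases j <;> simp at this ⊢ <;> nlinarith
    rw [← hh]
    exact sum_congr rfl fun u _ => by rw [← hW]; congr
  · have E : ∀ j, 2 * e G f j v = ∑ w, (if w = v ∨ adj v w then ∑ w', (if w' = v ∨ adj v w' then
        W δ (fun i => if i = j then 1 else 0) w w' else 0) else 0) := fun j => by
      rw [two_e]
      simp only [← hW]
      convert rfl
    have p0 := twoW h (fun i => if i = 0 then 1 else 0) v
    have p1 := twoW h (fun i => if i = 1 then 1 else 0) v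
    have p2 := twoW h (fun i => if i = 2 then 1 else 0) v
    have q0 := E 0
    have q1 := E 1
    have q2 := E 2
    rw [← q0] at p0
    rw [← q1] at p1
    rw [← q2] at p2
    simp only [ht] at p0 p1 p2
    simp at p0 p1 p2
    have : 2 * r + 1 + 2 * r ^ 2 < t + 1 := by
      have : 1 * r ≤ r ^ 2 * r := Nat.mul_le_mul_right _ (by nlinarith)
      nlinarith
    have := Nat.mul_lt_mul_of_pos_right this (Nat.succ_pos t)
    constructor <;> nlinarith
  · simp; omega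
  · rw [← hr]
    have : 1 ≤ 2 * r ^ 2 * ε := Nat.succ_le_of_lt (by rw [hε]; positivity)
    have h1 : ((2 * r + 1) * t + 2 * r) ^ 2 ≤ ((2 * r + 1) * (t + 1)) ^ 2 :=
      Nat.pow_le_pow_left (by nlinarith) _
    calc _ ≤ (5 * r ^ 2 + 4 * r) * ((2 * r + 1) * (t + 1)) ^ 2 := Nat.mul_le_mul_left _ h1
      _ = (2 * r + 1) ^ 2 * (m + 1) := by rw [← hm]; ring
      _ ≤ (2 * r + 1) ^ 2 * (2 * r ^ 2 * ε + m) := Nat.mul_le_mul_left _ (by omega)

/-- `c* = 5/4`. -/
theorem result :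
    IsLUB {c : ℝ | {a | IsFlip a ∧ c * (a 0 : ℝ) ^ 2 ≤ a 2}.Infinite} (5 / 4) := by
  refine ⟨fun c hc => ?_, fun b hb => le_of_forall_lt_imp_le_of_dense fun c hc => hb ?_⟩
  · by_contra hn
    push Not at hn
    obtain ⟨B, hB⟩ := exists_nat_ge (2 / (c - 5 / 4))
    refine hc ((Set.finite_Iic fun _ : Fin 3 => 2 * B + 2 * B ^ 2).subset fun a ha => ?_)
    have h1 := upper a ha.1
    have h2 := ha.2
    have h0 : (0 : ℝ) < a 0 := by exact_mod_cast ha.1.1
    rw [div_le_iff₀ (by linarith)] at hB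
    have h3 : (a 0 : ℝ) ≤ B := by
      by_contra h
      push Not at h
      nlinarith [mul_pos h0 (mul_pos (sub_pos.2 h) (sub_pos.2 hn))]
    have h4 : a 2 ≤ 2 * B + 2 * B ^ 2 := by
      have : (a 2 : ℝ) ≤ 2 * B + 2 * (B : ℝ) ^ 2 := by nlinarith
      exact_mod_cast this
    have := ha.1.2.1
    have := ha.1.2.2.1
    intro i
    fin_cases i <;> simp <;> omega
  · refine Set.Infinite.of_image (fun a => a 0) (Set.infinite_of_forall_exists_gt fun N => ?_)
    obtain ⟨B, hB⟩ := exists_nat_ge (1 / (5 / 4 - c))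
    obtain ⟨a, h1, h2, h3⟩ := lower (N + B)
    refine ⟨a 0, ⟨a, ⟨h1, ?_⟩, rfl⟩, by omega⟩
    obtain ⟨r, hr⟩ : ∃ r : ℝ, r = ((N + B : ℕ) : ℝ) + 3 := ⟨_, rfl⟩
    have h4 : (5 * r ^ 2 + 4 * r) * (a 0 : ℝ) ^ 2 ≤ (2 * r + 1) ^ 2 * a 2 := by
      rw [hr]; exact_mod_cast h3
    have h5 : (B : ℝ) + 3 ≤ r := by rw [hr]; push_cast; linarith [Nat.cast_nonneg (α := ℝ) N]
    have hB0 : (0 : ℝ) ≤ B := by positivity
    rw [div_le_iff₀ (by linarith)] at hB
    have h6 : 1 ≤ r * (5 / 4 - c) := by nlinarith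
    have h7 : c * (2 * r + 1) ^ 2 ≤ 5 * r ^ 2 + 4 * r := by nlinarith
    refine le_of_mul_le_mul_left ?_ (show 0 < (2 * r + 1) ^ 2 from pow_pos (by linarith) 2)
    nlinarith [mul_le_mul_of_nonneg_right h7 (sq_nonneg (a 0 : ℝ))]

end Pool.Agent.Results.MP_56a9b7_co.Const
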